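import Pool.Agent.P.MP_a15892_an.Toep

set_option autoImplicit false

namespace Pool.Agent.P.MP_a15892_an

open Matrix Filter Topology
open scoped ComplexOrder

theorem nonneg_iff_gen0 {A : Type} [NonUnitalCStarAlgebra A] [PartialOrder A] [StarOrderedRing A]
    (M : A) : 0 ≤ M ↔ ∃ B : A, M = star B * B :=
  CStarAlgebra.nonneg_iff_eq_star_mul_self

theorem nonneg_iff_gen {A n : Type} [NonUnitalCStarAlgebra A] [PartialOrder A] [StarOrderedRing A]
    [Fintype n] (M : CStarMatrix n n A) : 0 ≤ M ↔ ∃ B : CStarMatrix n n A, M = star B * B :=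
  nonneg_iff_gen0 M

section CX

variable {X : Type} [TopologicalSpace X] [CompactSpace X]

open scoped MatrixOrder Matrix.Norms.L2Operator in
theorem sqrt_cont {n : Type} [Fintype n] [DecidableEq n] :
    ∃ s : Matrix n n ℂ → Matrix n n ℂ, ContinuousOn s {M | M.PosSemidef} ∧
      ∀ M : Matrix n n ℂ, M.PosSemidef → (s M)ᴴ * s M = M := by
  refine ⟨CFC.sqrt, ?_, ?_⟩
  · have := CFC.continuousOn_sqrt (A := Matrix n n ℂ)
    simpa only [Matrix.nonneg_iff_posSemidef] using this
  · intro M hM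
    have h1 : (CFC.sqrt M).PosSemidef := Matrix.nonneg_iff_posSemidef.1 (CFC.sqrt_nonneg M)
    rw [h1.isHermitian.eq]
    exact CFC.sqrt_mul_sqrt_self M hM.nonneg

theorem nonneg_iff_pointwise {n : Type} [Fintype n] [DecidableEq n]
    (M : CStarMatrix n n C(X, ℂ)) :
    0 ≤ M ↔ ∀ x, (Matrix.of fun i j => M i j x).PosSemidef := by
  rw [nonneg_iff_gen]
  constructor
  · rintro ⟨B, rfl⟩ x
    have := posSemidef_conjTranspose_mul_self (Matrix.of fun i j => B i j x)
    convert this using 1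
    ext i j
    simp [CStarMatrix.mul_apply, CStarMatrix.star_apply, Matrix.mul_apply]
  · intro h
    obtain ⟨s, hs, hs2⟩ := sqrt_cont (n := n)
    have hc : Continuous (fun x => (Matrix.of fun i j => M i j x)) :=
      continuous_matrix fun i j => (M i j).continuous
    have hc2 : Continuous (fun x => s (Matrix.of fun i j => M i j x)) :=
      hs.comp_continuous hc h
    refine ⟨CStarMatrix.ofMatrix (Matrix.of fun i j =>
      ⟨fun x => s (Matrix.of fun i j => M i j x) i j, hc2.matrix_elem i j⟩), ?_⟩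
    ext i j x
    have := congrFun (congrFun (hs2 _ (h x)) i) j
    simp only [Matrix.mul_apply, conjTranspose_apply, of_apply] at this
    rw [← this]
    simp [CStarMatrix.mul_apply, CStarMatrix.star_apply]

omit [CompactSpace X] in
theorem pointwise_ext (k : ℕ) (hk : 0 < k) (a : ℤ → C(X, ℂ))
    (ha : ∀ x, (toep k fun l => a l x).PosSemidef) (n : ℕ) (hn : k ≤ n) :
    ∃ y : ℤ → C(X, ℂ), (∀ x, (toep n fun l => y l x).PosSemidef) ∧
      ∀ l : ℤ, |l| ≤ (k : ℤ) - 1 → y l = a l := by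
  induction n, hn using Nat.le_induction with
  | base => exact ⟨a, ha, fun _ _ => rfl⟩
  | succ n hn ih =>
    obtain ⟨y, hy, hy2⟩ := ih
    obtain ⟨m, rfl⟩ : ∃ m, n = m + 1 := ⟨n - 1, by omega⟩
    have hc : Continuous (fun x => Phi m fun l => y l x) :=
      (continuousOn_Phi m).comp_continuous (continuous_pi fun l => (y l).continuous) hy
    let γ : C(X, ℂ) := ⟨_, hc⟩
    refine ⟨fun l => if l = (m + 1 : ℕ) then γ else if l = -(m + 1 : ℕ) then star γ else y l,
      fun x => ?_, fun l hl => ?_⟩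
    · have := psd_ext (hy x)
      convert this using 2
      ext l
      simp only [ext1]
      split_ifs <;> rfl
    · have := abs_le.1 hl
      simp only
      rw [if_neg (by omega), if_neg (by omega)]
      exact hy2 l hl

theorem ptc_CX (k n : ℕ) (hk : 0 < k) (hn : k < n) (a : ℤ → C(X, ℂ))
    (ha : 0 ≤ (CStarMatrix.ofMatrix (Matrix.of fun i j : Fin k => a ((i : ℤ) - (j : ℤ))) :
      CStarMatrix (Fin k) (Fin k) C(X, ℂ))) :
    ∃ y : ℤ → C(X, ℂ),
      0 ≤ (CStarMatrix.ofMatrix (Matrix.of fun i j : Fin n => y ((i : ℤ) - (j : ℤ))) :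
        CStarMatrix (Fin n) (Fin n) C(X, ℂ)) ∧ ∀ l : ℤ, |l| ≤ (k : ℤ) - 1 → y l = a l := by
  rw [nonneg_iff_pointwise] at ha
  obtain ⟨y, hy, hy2⟩ := pointwise_ext k hk a ha n hn.le
  exact ⟨y, (nonneg_iff_pointwise _).2 hy, hy2⟩

end CX

section Counter

theorem forced {E : Type} [NormedAddCommGroup E] [InnerProductSpace ℂ E] (u w z : E) (ε : ℝ)
    (huu : inner ℂ u u = 1) (hww : inner ℂ w w = (ε : ℂ) * ε)
    (hwu : inner ℂ w u = (ε : ℂ)) : (ε : ℂ) * inner ℂ z u = inner ℂ z w := by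
  have huw : inner ℂ u w = (ε : ℂ) := by rw [← inner_conj_symm, hwu]; simp
  have h1 : w - (ε : ℂ) • u = 0 := by
    rw [← inner_self_eq_zero (𝕜 := ℂ)]
    simp only [inner_sub_left, inner_sub_right, inner_smul_left, inner_smul_right, huu, hww, hwu,
      huw, Complex.conj_ofReal]
    ring
  have h2 : w = (ε : ℂ) • u := sub_eq_zero.1 h1
  rw [h2, inner_smul_right]

/-- The interval. -/
abbrev II : Type := Set.Icc (-1 : ℝ) 1

/-- The function x. -/
noncomputable def tt : C(II, ℂ) := ⟨fun x => ((x : ℝ) : ℂ), by fun_prop⟩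

/-- The function |x|. -/
noncomputable def ee : C(II, ℂ) := ⟨fun x => ((|(x : ℝ)| : ℝ) : ℂ), by fun_prop⟩

theorem star_tt : star tt = tt := by ext x; simp [tt]

theorem star_ee : star ee = ee := by
  ext x
  simp only [ee, ContinuousMap.star_apply, ContinuousMap.coe_mk]
  exact Complex.conj_ofReal _

theorem tt_mul : tt * tt = ee * ee := by
  ext x
  simp only [tt, ee, ContinuousMap.mul_apply, ContinuousMap.coe_mk]
  rw [← Complex.ofReal_mul, ← Complex.ofReal_mul, abs_mul_abs_self]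

/-- The data of the counterexample. -/
noncomputable def aa : ℤ → CStarMatrix (Fin 2) (Fin 2) C(II, ℂ) := fun l =>
  if l = 0 then CStarMatrix.ofMatrix !![1, 0; 0, ee * ee]
  else if l = 1 then CStarMatrix.ofMatrix !![0, tt; ee, 0]
  else CStarMatrix.ofMatrix !![0, ee; tt, 0]

theorem aa_nonneg :
    0 ≤ (CStarMatrix.ofMatrix (Matrix.of fun i j : Fin 2 => aa ((i : ℤ) - (j : ℤ))) :
      CStarMatrix (Fin 2) (Fin 2) (CStarMatrix (Fin 2) (Fin 2) C(II, ℂ))) := by
  rw [nonneg_iff_gen]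
  refine ⟨CStarMatrix.ofMatrix !![CStarMatrix.ofMatrix !![1, 0; 0, tt],
    CStarMatrix.ofMatrix !![0, ee; 1, 0]; 0, 0], ?_⟩
  ext i j p q : 4
  fin_cases i <;> fin_cases j <;> fin_cases p <;> fin_cases q <;>
    simp [aa, CStarMatrix.mul_apply, CStarMatrix.star_apply, Fin.sum_univ_two, star_tt, star_ee,
      tt_mul]

theorem no_cont (g : C(II, ℂ)) : ¬ ∀ x, ee x * g x = tt x := by
  intro h
  have hpos : ∀ x : II, 0 < (x : ℝ) → g x = 1 := by
    intro x hx
    have := h x
    simp only [ee, tt, ContinuousMap.coe_mk, abs_of_pos hx] at this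
    have hx' : ((x : ℝ) : ℂ) ≠ 0 := by exact_mod_cast hx.ne'
    exact mul_left_cancel₀ hx' (by rw [this, mul_one])
  have hneg : ∀ x : II, (x : ℝ) < 0 → g x = -1 := by
    intro x hx
    have := h x
    simp only [ee, tt, ContinuousMap.coe_mk, abs_of_neg hx, Complex.ofReal_neg] at this
    have hx' : ((x : ℝ) : ℂ) ≠ 0 := by exact_mod_cast hx.ne
    exact mul_left_cancel₀ hx' (by linear_combination -this)
  let f : ℝ → ℂ := fun s => g (Set.projIcc (-1) 1 (by norm_num) s)
  have hf : Continuous f := g.continuous.comp continuous_projIcc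
  have h1 : f 0 = 1 := by
    have hc : IsClosed {s | f s = 1} := isClosed_eq hf continuous_const
    have hs : Set.Ioo (0 : ℝ) 1 ⊆ {s | f s = 1} := by
      intro s hs
      apply hpos
      rw [Set.projIcc_of_mem _ ⟨by linarith [hs.1], hs.2.le⟩]
      exact hs.1
    have := closure_minimal hs hc
    rw [closure_Ioo (by norm_num)] at this
    exact this ⟨le_rfl, by norm_num⟩
  have h2 : f 0 = -1 := by
    have hc : IsClosed {s | f s = -1} := isClosed_eq hf continuous_const
    have hs : Set.Ioo (-1 : ℝ) 0 ⊆ {s | f s = -1} := by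
      intro s hs
      apply hneg
      rw [Set.projIcc_of_mem _ ⟨hs.1.le, by linarith [hs.2]⟩]
      exact hs.2
    have := closure_minimal hs hc
    rw [closure_Ioo (by norm_num)] at this
    exact this ⟨by norm_num, le_rfl⟩
  rw [h1] at h2
  norm_num at h2

theorem no_completion (y : ℤ → CStarMatrix (Fin 2) (Fin 2) C(II, ℂ))
    (hy : 0 ≤ (CStarMatrix.ofMatrix (Matrix.of fun i j : Fin 3 => y ((i : ℤ) - (j : ℤ))) :
      CStarMatrix (Fin 3) (Fin 3) (CStarMatrix (Fin 2) (Fin 2) C(II, ℂ))))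
    (hl : ∀ l : ℤ, |l| ≤ ((2 : ℕ) : ℤ) - 1 → y l = aa l) : False := by
  rw [nonneg_iff_gen] at hy
  obtain ⟨B, hB⟩ := hy
  apply no_cont (y 2 0 0)
  intro x
  let v : Fin 3 → Fin 2 → EuclideanSpace ℂ (Fin 3 × Fin 2) := fun i p =>
    WithLp.toLp 2 fun c => B c.1 i c.2 p x
  have hv : ∀ i j : Fin 3, ∀ p q : Fin 2,
      inner ℂ (v i p) (v j q) = y ((i : ℤ) - (j : ℤ)) p q x := by
    intro i j p q
    have := congrArg (fun M : CStarMatrix (Fin 3) (Fin 3) (CStarMatrix (Fin 2) (Fin 2) C(II, ℂ)) =>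
      M i j p q x) hB
    simp only [CStarMatrix.ofMatrix_apply, of_apply] at this
    rw [this]
    simp [v, PiLp.inner_apply, Fintype.sum_prod_type, Fin.sum_univ_three, Fin.sum_univ_two,
      CStarMatrix.mul_apply, CStarMatrix.star_apply, mul_comm]
  have y0 := hl 0 (by norm_num)
  have y1 := hl 1 (by norm_num)
  have := forced (v 0 0) (v 1 1) (v 2 0) |(x : ℝ)|
    (by rw [hv]; simp [y0, aa]) (by rw [hv]; simp [y0, aa, ee]) (by rw [hv]; simp [y1, aa, ee])
  rw [hv, hv] at this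
  have e1 : (((2 : Fin 3) : ℕ) : ℤ) - ((1 : Fin 3) : ℕ) = 1 := by norm_num
  have e2 : (((2 : Fin 3) : ℕ) : ℤ) - ((0 : Fin 3) : ℕ) = 2 := by norm_num
  rw [e1, e2, y1] at this
  simpa [aa, ee] using this

end Counter

end Pool.Agent.P.MP_a15892_an
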