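import Mathlib

set_option autoImplicit false

namespace Pool.Agent.P.MP_a15892_an

open Matrix Filter Topology
open scoped ComplexOrder

section Abstract

variable {μ ι : Type} [Fintype μ] [DecidableEq μ]

omit [DecidableEq μ] in
theorem herm_dot {T : Matrix μ μ ℂ} (hT : T.IsHermitian) (x z : μ → ℂ) :
    star (T *ᵥ x) ⬝ᵥ z = star x ⬝ᵥ (T *ᵥ z) := by
  rw [star_mulVec, hT.eq, dotProduct_mulVec]

theorem exists_solve {T : Matrix μ μ ℂ} (hT : T.IsHermitian) (r : μ → ℂ)
    (h : ∀ u, T *ᵥ u = 0 → star u ⬝ᵥ r = 0) : ∃ x, T *ᵥ x = r := by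
  have hs := isSymmetric_toEuclideanLin_iff.mpr hT
  have h1 := hs.orthogonal_range
  have h2 : (LinearMap.range (toEuclideanLin T))ᗮᗮ = LinearMap.range (toEuclideanLin T) :=
    Submodule.orthogonal_orthogonal _
  have h3 : (WithLp.toLp 2 r : EuclideanSpace ℂ μ) ∈ LinearMap.range (toEuclideanLin T) := by
    rw [← h2, h1, Submodule.mem_orthogonal]
    intro u hu
    have hu' : T *ᵥ (WithLp.ofLp u) = 0 := by
      have := congrArg WithLp.ofLp (LinearMap.mem_ker.1 hu)
      simpa using this
    have := h _ hu'
    rw [EuclideanSpace.inner_eq_star_dotProduct, dotProduct_comm]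
    simpa using this
  obtain ⟨x, hx⟩ := h3
  refine ⟨WithLp.ofLp x, ?_⟩
  have := congrArg WithLp.ofLp hx
  simpa using this

theorem option_psd (N : Matrix (Option μ) (Option μ) ℂ) (hN : N.PosSemidef) :
    (∃ x, N.submatrix some some *ᵥ x = fun l => N (some l) none) ∧
    ∀ x, (N.submatrix some some *ᵥ x = fun l => N (some l) none) →
      0 ≤ N none none - star x ⬝ᵥ fun l => N (some l) none := by
  have hT : (N.submatrix some some).IsHermitian := (hN.submatrix some).isHermitian
  have hsym : ∀ i j, star (N i j) = N j i := fun i j => hN.isHermitian.apply j i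
  constructor
  · apply exists_solve hT
    intro u hu
    let v : Option μ → ℂ := fun o => o.elim 0 u
    have h0 : star v ⬝ᵥ (N *ᵥ v) = 0 := by
      have : star u ⬝ᵥ (N.submatrix some some *ᵥ u) = 0 := by rw [hu, dotProduct_zero]
      rw [← this]
      simp [dotProduct, mulVec, Fintype.sum_option, v]
    have h1 := congrFun ((hN.dotProduct_mulVec_zero_iff v).1 h0) none
    simp only [mulVec, dotProduct, Fintype.sum_option, v, Option.elim, mul_zero, zero_add,
      Pi.zero_apply] at h1
    have h2 := congrArg star h1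
    simp only [star_sum, star_mul, hsym, star_zero] at h2
    simpa [dotProduct] using h2
  · intro x hx
    let v : Option μ → ℂ := fun o => o.elim 1 (-x)
    have h0 := hN.dotProduct_mulVec_nonneg v
    have e1 : ∀ l, (N *ᵥ v) (some l) = 0 := by
      intro l
      have := congrFun hx l
      simp only [mulVec, dotProduct, submatrix_apply] at this
      simp [mulVec, dotProduct, Fintype.sum_option, v, this]
    have e2 : star v ⬝ᵥ (N *ᵥ v) = N none none - ∑ l, N none (some l) * x l := by
      simp only [dotProduct, Fintype.sum_option, e1, mul_zero, Finset.sum_const_zero, add_zero]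
      simp [mulVec, dotProduct, Fintype.sum_option, v, sub_eq_add_neg]
    rw [e2] at h0
    have h1 := star_nonneg_iff.2 h0
    simp only [star_sub, star_sum, star_mul, hsym] at h1
    simpa [dotProduct] using h1

theorem psd_complete [Fintype ι] [DecidableEq ι] (M : Matrix ι ι ℂ) (hM : M.IsHermitian)
    (mid : μ → ι) (hT : (M.submatrix mid mid).PosSemidef) (col : ι → μ → ℂ)
    (hcol : ∀ j, M.submatrix mid mid *ᵥ col j = fun l => M (mid l) j)
    (hdiag : ∀ i, i ∉ Set.range mid → 0 ≤ M i i - star (col i) ⬝ᵥ (fun l => M (mid l) i))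
    (hoff : ∀ i j, i ≠ j → i ∉ Set.range mid → j ∉ Set.range mid →
      M i j = star (col i) ⬝ᵥ fun l => M (mid l) j) : M.PosSemidef := by
  have hsym : ∀ i j, star (M i j) = M j i := fun i j => hM.apply j i
  let E : Matrix μ ι ℂ := Matrix.of fun l i => col i l
  have hN : (Eᴴ * M.submatrix mid mid * E).PosSemidef := hT.conjTranspose_mul_mul_same E
  have hNe : ∀ i j, (Eᴴ * M.submatrix mid mid * E) i j = star (col i) ⬝ᵥ fun l => M (mid l) j := by
    intro i j
    rw [← hcol j, Matrix.mul_assoc]
    simp [Matrix.mul_apply, dotProduct, mulVec, E]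
  have hrow : ∀ l j, M (mid l) j = star (col (mid l)) ⬝ᵥ fun l' => M (mid l') j := by
    intro l j
    rw [← hcol j, ← herm_dot hT.isHermitian, hcol]
    have := congrFun (hcol j) l
    rw [← this]
    simp [mulVec, dotProduct, hsym]
  have hcolm : ∀ i l, M i (mid l) = star (col i) ⬝ᵥ fun l' => M (mid l') (mid l) := by
    intro i l
    have := congrArg star (congrFun (hcol i) l)
    rw [hsym] at this
    rw [← this]
    simp [mulVec, dotProduct, hsym, mul_comm]
  let d : ι → ℂ := fun i => M i i - star (col i) ⬝ᵥ fun l => M (mid l) i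
  have hd : 0 ≤ d := by
    intro i
    by_cases hi : i ∈ Set.range mid
    · obtain ⟨l, rfl⟩ := hi
      simp only [d, Pi.zero_apply]
      rw [← hrow, sub_self]
    · exact hdiag i hi
  have hMe : M = Eᴴ * M.submatrix mid mid * E + diagonal d := by
    ext i j
    rw [Matrix.add_apply, hNe]
    by_cases hij : i = j
    · subst hij
      simp [d]
    · rw [diagonal_apply_ne _ hij, add_zero]
      by_cases hi : i ∈ Set.range mid
      · obtain ⟨l, rfl⟩ := hi
        exact hrow l j
      · by_cases hj : j ∈ Set.range mid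
        · obtain ⟨l, rfl⟩ := hj
          exact hcolm i l
        · exact hoff i j hij hi hj
  rw [hMe]
  exact hN.add (PosSemidef.diagonal hd)

end Abstract

end Pool.Agent.P.MP_a15892_an
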