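import Pool.Agent.P.MP_a15892_an.Scalar

set_option autoImplicit false

namespace Pool.Agent.P.MP_a15892_an

open Matrix Filter Topology
open scoped ComplexOrder

/-- Scalar Toeplitz matrix. -/
def toep (n : ℕ) (a : ℤ → ℂ) : Matrix (Fin n) (Fin n) ℂ :=
  Matrix.of fun i j => a ((i : ℤ) - (j : ℤ))

@[simp] theorem toep_apply (n : ℕ) (a : ℤ → ℂ) (i j : Fin n) :
    toep n a i j = a ((i : ℤ) - (j : ℤ)) := rfl

/-- One step extension. -/
def ext1 (k : ℕ) (a : ℤ → ℂ) (γ : ℂ) : ℤ → ℂ :=
  fun l => if l = k then γ else if l = -k then star γ else a l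

theorem ext1_of_lt {k : ℕ} (a : ℤ → ℂ) (γ : ℂ) {l : ℤ} (h1 : l < k) (h2 : -k < l) :
    ext1 k a γ l = a l := by
  simp only [ext1]
  rw [if_neg (by omega), if_neg (by omega)]

theorem toep_ext1 {n k : ℕ} (h : n ≤ k) (a : ℤ → ℂ) (γ : ℂ) : toep n (ext1 k a γ) = toep n a := by
  ext i j
  simp only [toep_apply]
  apply ext1_of_lt <;> omega

/-- chosen solution of the middle system -/
noncomputable def zz (m : ℕ) (a : ℤ → ℂ) : Fin m → ℂ :=
  Classical.epsilon fun z => toep m a *ᵥ z = fun l : Fin m => a ((l : ℤ) - m)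

/-- The central completion value. -/
noncomputable def Phi (m : ℕ) (a : ℤ → ℂ) : ℂ :=
  star (zz m a) ⬝ᵥ fun l : Fin m => a ((l : ℤ) + 1)

theorem herm_of_psd {n : ℕ} {a : ℤ → ℂ} (h : (toep n a).PosSemidef) {l : ℤ} (h1 : l < n)
    (h2 : -n < l) : star (a l) = a (-l) := by
  rcases le_total 0 l with hl | hl
  · have := h.isHermitian.apply (⟨0, by omega⟩ : Fin n) ⟨l.toNat, by omega⟩
    simpa [Int.toNat_of_nonneg hl] using this
  · have := h.isHermitian.apply (⟨(-l).toNat, by omega⟩ : Fin n) ⟨0, by omega⟩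
    have e : (((-l).toNat : ℕ) : ℤ) = -l := Int.toNat_of_nonneg (by omega)
    simp only [toep_apply, e] at this
    simpa using this

theorem first_part {m : ℕ} {a : ℤ → ℂ} (h : (toep (m + 1) a).PosSemidef) :
    (∃ x, toep m a *ᵥ x = fun l : Fin m => a ((l : ℤ) + 1)) ∧
    ∀ x, (toep m a *ᵥ x = fun l : Fin m => a ((l : ℤ) + 1)) →
      0 ≤ a 0 - star x ⬝ᵥ fun l : Fin m => a ((l : ℤ) + 1) := by
  let e : Option (Fin m) → Fin (m + 1) := fun o => o.elim 0 Fin.succ
  have := option_psd _ (h.submatrix e)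
  have e1 : ((toep (m + 1) a).submatrix e e).submatrix some some = toep m a := by
    ext i j
    simp [e]
  have e2 : (fun l => (toep (m + 1) a).submatrix e e (some l) none) =
      fun l : Fin m => a ((l : ℤ) + 1) := by
    ext l
    simp [e]
  rw [e1, e2] at this
  simpa [e] using this

theorem last_part {m : ℕ} {a : ℤ → ℂ} (h : (toep (m + 1) a).PosSemidef) :
    (∃ x, toep m a *ᵥ x = fun l : Fin m => a ((l : ℤ) - m)) ∧
    ∀ x, (toep m a *ᵥ x = fun l : Fin m => a ((l : ℤ) - m)) →
      0 ≤ a 0 - star x ⬝ᵥ fun l : Fin m => a ((l : ℤ) - m) := by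
  let e : Option (Fin m) → Fin (m + 1) := fun o => o.elim (Fin.last m) Fin.castSucc
  have := option_psd _ (h.submatrix e)
  have e1 : ((toep (m + 1) a).submatrix e e).submatrix some some = toep m a := by
    ext i j
    simp [e]
  have e2 : (fun l => (toep (m + 1) a).submatrix e e (some l) none) =
      fun l : Fin m => a ((l : ℤ) - m) := by
    ext l
    simp [e]
  rw [e1, e2] at this
  simpa [e] using this

theorem zz_spec {m : ℕ} {a : ℤ → ℂ} (h : (toep (m + 1) a).PosSemidef) :
    toep m a *ᵥ zz m a = fun l : Fin m => a ((l : ℤ) - m) :=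
  Classical.epsilon_spec (last_part h).1

theorem psd_pred {m : ℕ} {a : ℤ → ℂ} (h : (toep (m + 1) a).PosSemidef) :
    (toep m a).PosSemidef := by
  have := h.submatrix (Fin.castSucc)
  convert this using 1
  ext i j
  simp

theorem psd_ext {m : ℕ} {a : ℤ → ℂ} (h : (toep (m + 1) a).PosSemidef) :
    (toep (m + 2) (ext1 (m + 1) a (Phi m a))).PosSemidef := by
  obtain ⟨⟨x, hx⟩, hx2⟩ := first_part h
  have hz := zz_spec h
  have hz2 := (last_part h).2 _ hz
  set γ := Phi m a with hγ
  let mid : Fin m → Fin (m + 2) := fun l => l.castSucc.succ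
  have hmid : ∀ l : Fin m, ((mid l : ℕ) : ℤ) = (l : ℤ) + 1 := fun l => by simp [mid]
  have hsub : (toep (m + 2) (ext1 (m + 1) a γ)).submatrix mid mid = toep m a := by
    ext i j
    simp only [submatrix_apply, toep_apply, hmid]
    rw [ext1_of_lt] <;> [skip; (push_cast; omega); (push_cast; omega)]
    congr 1
    ring
  have hc0 : (fun l => toep (m + 2) (ext1 (m + 1) a γ) (mid l) 0) =
      fun l : Fin m => a ((l : ℤ) + 1) := by
    ext l
    simp only [toep_apply, hmid]
    rw [ext1_of_lt]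
    · simp
    · simp
    · simp
      omega
  have hcl : (fun l => toep (m + 2) (ext1 (m + 1) a γ) (mid l) (Fin.last (m + 1))) =
      fun l : Fin m => a ((l : ℤ) - m) := by
    ext l
    simp only [toep_apply, hmid]
    rw [ext1_of_lt] <;> simp <;> omega
  have hcases : ∀ i : Fin (m + 2), i = 0 ∨ i = Fin.last (m + 1) ∨ i ∈ Set.range mid := by
    intro i
    by_cases h0 : i = 0
    · exact Or.inl h0
    by_cases hl : i = Fin.last (m + 1)
    · exact Or.inr (Or.inl hl)
    right; right
    have h0' : i.val ≠ 0 := fun e => h0 (Fin.ext e)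
    have hl' : i.val ≠ m + 1 := fun e => hl (Fin.ext e)
    refine ⟨⟨i.val - 1, by omega⟩, Fin.ext ?_⟩
    simp [mid]
    omega
  have hne : (0 : Fin (m + 2)) ≠ Fin.last (m + 1) := by
    intro e
    have := congrArg Fin.val e
    simp at this
  let col : Fin (m + 2) → Fin m → ℂ := fun i =>
    if i = 0 then x else if i = Fin.last (m + 1) then zz m a else
      fun l => if mid l = i then 1 else 0
  have col0 : col 0 = x := by simp [col]
  have coll : col (Fin.last (m + 1)) = zz m a := by simp [col, hne.symm]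
  have hT := (psd_pred h)
  apply psd_complete _ _ mid (hsub ▸ hT) col
  · intro j
    rw [hsub]
    rcases hcases j with rfl | rfl | ⟨j, rfl⟩
    · rw [col0, hx, hc0]
    · rw [coll, hz, hcl]
    · have n0 : mid j ≠ 0 := by
        intro e
        have := congrArg Fin.val e
        simp [mid] at this
      have nl : mid j ≠ Fin.last (m + 1) := by
        intro e
        have := congrArg Fin.val e
        simp [mid] at this
        omega
      have hinj : ∀ l, mid l = mid j ↔ l = j := fun l => by simp [mid]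
      ext l
      simp only [col, if_neg n0, if_neg nl, hinj]
      have := congrFun (congrFun hsub l) j
      simp only [submatrix_apply] at this
      rw [this]
      simp [mulVec, dotProduct]
  · intro i hi
    have e0 : toep (m + 2) (ext1 (m + 1) a γ) i i = a 0 := by
      simp only [toep_apply, sub_self]
      apply ext1_of_lt <;> omega
    rw [e0]
    rcases hcases i with rfl | rfl | hi'
    · rw [col0, hc0]; exact hx2 x hx
    · rw [coll, hcl]; exact hz2
    · exact absurd hi' hi
  · intro i j hij hi hj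
    rcases hcases i with rfl | rfl | hi'
    · rcases hcases j with rfl | rfl | hj'
      · exact absurd rfl hij
      · rw [col0, hcl, ← hz, ← herm_dot hT.isHermitian, hx]
        have : toep (m + 2) (ext1 (m + 1) a γ) 0 (Fin.last (m + 1)) = star γ := by
          simp only [toep_apply, ext1]
          rw [if_neg (by simp; omega), if_pos (by simp)]
        rw [this, hγ, Phi, star_dotProduct]
        simp
      · exact absurd hj' hj
    · rcases hcases j with rfl | rfl | hj'
      · rw [coll, hc0]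
        simp only [toep_apply, ext1]
        rw [if_pos (by simp)]
        rfl
      · exact absurd rfl hij
      · exact absurd hj' hj
    · exact absurd hi' hi
  · ext i j
    simp only [conjTranspose_apply, toep_apply, ext1]
    have hi := i.isLt
    have hj := j.isLt
    by_cases c1 : (j : ℤ) - i = ((m + 1 : ℕ) : ℤ)
    · rw [if_pos c1, if_neg (by omega), if_pos (by omega)]
    · by_cases c2 : (j : ℤ) - i = -((m + 1 : ℕ) : ℤ)
      · rw [if_neg c1, if_pos c2, if_pos (by omega), star_star]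
      · rw [if_neg c1, if_neg c2, if_neg (by omega), if_neg (by omega),
          herm_of_psd h (by omega) (by omega)]
        congr 1
        ring

theorem form_cons {n : ℕ} (a : ℤ → ℂ) (u : Fin n → ℂ) :
    star (Fin.cons 0 u : Fin (n + 1) → ℂ) ⬝ᵥ (toep (n + 1) a *ᵥ (Fin.cons 0 u : Fin (n + 1) → ℂ)) =
      star u ⬝ᵥ (toep n a *ᵥ u) := by
  simp [dotProduct, mulVec, Fin.sum_univ_succ]

theorem form_snoc {n : ℕ} (a : ℤ → ℂ) (u : Fin n → ℂ) :
    star (Fin.snoc u 0 : Fin (n + 1) → ℂ) ⬝ᵥ (toep (n + 1) a *ᵥ (Fin.snoc u 0 : Fin (n + 1) → ℂ)) =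
      star u ⬝ᵥ (toep n a *ᵥ u) := by
  simp [dotProduct, mulVec, Fin.sum_univ_castSucc]

theorem shift_ker (a : ℤ → ℂ) : ∀ (n : ℕ) (u : Fin n → ℂ), u ≠ 0 →
    star u ⬝ᵥ (toep n a *ᵥ u) = 0 →
    ∃ v : Fin (n + 1) → ℂ, v 0 ≠ 0 ∧ star v ⬝ᵥ (toep (n + 1) a *ᵥ v) = 0 := by
  intro n
  induction n with
  | zero => intro u hu; exact absurd (Subsingleton.elim _ _) hu
  | succ n ih =>
    intro u hu h0
    by_cases hu0 : u 0 = 0
    · have e : u = Fin.cons 0 (Fin.tail u) := by rw [← hu0, Fin.cons_self_tail]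
      have ht : Fin.tail u ≠ 0 := by
        intro h
        apply hu
        rw [e, h]
        ext i
        refine Fin.cases ?_ (fun j => ?_) i <;> simp
      rw [e, form_cons] at h0
      obtain ⟨v, hv0, hv⟩ := ih _ ht h0
      refine ⟨Fin.snoc v 0, ?_, by rw [form_snoc, hv]⟩
      have : (0 : Fin (n + 1 + 1)) = Fin.castSucc 0 := rfl
      rw [this, Fin.snoc_castSucc]
      exact hv0
    · refine ⟨Fin.snoc u 0, ?_, by rw [form_snoc, h0]⟩
      have : (0 : Fin (n + 1 + 1)) = Fin.castSucc 0 := rfl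
      rw [this, Fin.snoc_castSucc]
      exact hu0

theorem unique_ext {m : ℕ} {a : ℤ → ℂ} (hdet : (toep m a).det = 0) {γ δ : ℂ}
    (h1 : (toep (m + 2) (ext1 (m + 1) a γ)).PosSemidef)
    (h2 : (toep (m + 2) (ext1 (m + 1) a δ)).PosSemidef) : γ = δ := by
  obtain ⟨u, hu, hu0⟩ := Matrix.exists_mulVec_eq_zero_iff.2 hdet
  obtain ⟨v, hv0, hv⟩ := shift_ker a m u hu (by rw [hu0, dotProduct_zero])
  have key : ∀ γ : ℂ, (toep (m + 2) (ext1 (m + 1) a γ)).PosSemidef →
      γ * v 0 + ∑ j : Fin m, a ((m : ℤ) - j) * v j.succ = 0 := by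
    intro γ h
    have e := form_snoc (ext1 (m + 1) a γ) v
    rw [toep_ext1 le_rfl, hv] at e
    have e2 := congrFun ((h.dotProduct_mulVec_zero_iff _).1 e) (Fin.last (m + 1))
    simp only [mulVec, dotProduct, Fin.sum_univ_castSucc, Fin.snoc_castSucc, Fin.snoc_last,
      mul_zero, add_zero, Pi.zero_apply] at e2
    rw [← e2, ← Fin.sum_univ_castSucc
      (fun j : Fin (m + 1) => toep (m + 2) (ext1 (m + 1) a γ) (Fin.last (m + 1)) j.castSucc * v j),
      Fin.sum_univ_succ]
    congr 1
    · simp [ext1]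
    · apply Finset.sum_congr rfl
      intro j _
      simp only [toep_apply]
      rw [ext1_of_lt] <;> simp <;> omega
  have k1 := key γ h1
  have k2 := key δ h2
  have : (γ - δ) * v 0 = 0 := by linear_combination k1 - k2
  rcases mul_eq_zero.1 this with h | h
  · exact sub_eq_zero.1 h
  · exact absurd h hv0

theorem norm_ext_le {m : ℕ} {a : ℤ → ℂ} {γ : ℂ}
    (h : (toep (m + 2) (ext1 (m + 1) a γ)).PosSemidef) : ‖γ‖ ≤ ‖a 0‖ := by
  have h2 := (h.submatrix (![0, Fin.last (m + 1)] : Fin 2 → Fin (m + 2))).det_nonneg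
  have e0 : ext1 (m + 1) a γ 0 = a 0 := ext1_of_lt _ _ (by omega) (by omega)
  have e1 : ext1 (m + 1) a γ ((m : ℤ) + 1) = γ := by simp [ext1]
  have e2 : ext1 (m + 1) a γ (-((m : ℤ) + 1)) = star γ := by
    simp only [ext1]
    rw [if_neg (by omega), if_pos (by simp)]
  simp only [det_fin_two, submatrix_apply, toep_apply, cons_val_zero, cons_val_one, sub_self,
    Fin.val_zero, Fin.val_last, Nat.cast_add, Nat.cast_one, Nat.cast_zero, zero_sub, sub_zero,
    e0, e1, e2] at h2
  have h3 : star γ * γ ≤ a 0 * a 0 := sub_nonneg.1 h2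
  have h4 : (0 : ℂ) ≤ star γ * γ := star_mul_self_nonneg γ
  have h5 := CStarAlgebra.norm_le_norm_of_nonneg_of_le h4 h3
  rw [norm_mul, norm_mul, norm_star] at h5
  exact (mul_self_le_mul_self_iff (norm_nonneg _) (norm_nonneg _)).2 h5

theorem isClosed_psd {n : Type} [Fintype n] : IsClosed {M : Matrix n n ℂ | M.PosSemidef} := by
  have : {M : Matrix n n ℂ | M.PosSemidef} =
      {M | Mᴴ = M} ∩ ⋂ x : n → ℂ, {M | 0 ≤ star x ⬝ᵥ (M *ᵥ x)} := by
    ext M
    simp [posSemidef_iff_dotProduct_mulVec, IsHermitian]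
  rw [this]
  refine (isClosed_eq (by fun_prop) continuous_id).inter (isClosed_iInter fun x => ?_)
  exact isClosed_le continuous_const (by fun_prop)

theorem continuous_toep (n : ℕ) : Continuous (toep n) :=
  continuous_matrix fun _ _ => continuous_apply _

theorem continuous_ext1 (k : ℕ) : Continuous (fun p : (ℤ → ℂ) × ℂ => ext1 k p.1 p.2) := by
  apply continuous_pi
  intro l
  simp only [ext1]
  split_ifs
  · fun_prop
  · fun_prop
  · fun_prop

theorem continuousOn_Phi (m : ℕ) :
    ContinuousOn (Phi m) {a | (toep (m + 1) a).PosSemidef} := by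
  intro a ha
  by_cases hdet : (toep m a).det = 0
  · apply (isCompact_closedBall (0 : ℂ) (‖a 0‖ + 1)).tendsto_nhds_of_unique_mapClusterPt
    · have h1 : ∀ᶠ b in 𝓝 a, ‖b 0‖ < ‖a 0‖ + 1 := by
        have : ContinuousAt (fun b : ℤ → ℂ => ‖b 0‖) a := (continuous_apply (0 : ℤ)).norm.continuousAt
        exact this.eventually (gt_mem_nhds (by simp))
      filter_upwards [nhdsWithin_le_nhds h1, self_mem_nhdsWithin] with b hb1 hb2
      have := norm_ext_le (psd_ext hb2)
      simp only [Metric.mem_closedBall, dist_zero_right]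
      linarith
    · intro γ _ hγ
      obtain ⟨U, hU, hU2⟩ := mapClusterPt_iff_ultrafilter.1 hγ
      have h1 : Tendsto (fun b => (b, Phi m b)) U (𝓝 (a, γ)) :=
        (tendsto_id'.2 (hU.trans nhdsWithin_le_nhds)).prodMk_nhds hU2
      have h2 : Tendsto (fun b => toep (m + 2) (ext1 (m + 1) b (Phi m b))) U
          (𝓝 (toep (m + 2) (ext1 (m + 1) a γ))) :=
        (((continuous_toep (m + 2)).comp (continuous_ext1 (m + 1))).tendsto (a, γ)).comp h1
      have h3 : (toep (m + 2) (ext1 (m + 1) a γ)).PosSemidef := by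
        apply isClosed_psd.mem_of_tendsto h2
        filter_upwards [hU self_mem_nhdsWithin] with b hb
        exact psd_ext hb
      exact unique_ext hdet h3 (psd_ext ha)
  · have hform : ∀ b, (toep (m + 1) b).PosSemidef → (toep m b).det ≠ 0 →
        Phi m b = star ((toep m b)⁻¹ *ᵥ fun l : Fin m => b ((l : ℤ) - m)) ⬝ᵥ
          fun l : Fin m => b ((l : ℤ) + 1) := by
      intro b hb hd
      rw [← zz_spec hb, mulVec_mulVec, nonsing_inv_mul _ (Ne.isUnit hd), one_mulVec, Phi]
    have hinv : ContinuousAt (fun b => (toep m b)⁻¹) a := by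
      apply ContinuousAt.comp (g := Inv.inv) (f := toep m) _ (continuous_toep m).continuousAt
      apply continuousAt_matrix_inv
      rw [Ring.inverse_eq_inv']
      exact continuousAt_inv₀ hdet
    have hc : ContinuousAt (fun b : ℤ → ℂ =>
        star ((toep m b)⁻¹ *ᵥ fun l : Fin m => b ((l : ℤ) - m)) ⬝ᵥ
          fun l : Fin m => b ((l : ℤ) + 1)) a := by
      have g : Continuous (fun p : Matrix (Fin m) (Fin m) ℂ × (ℤ → ℂ) =>
          star (p.1 *ᵥ fun l : Fin m => p.2 ((l : ℤ) - m)) ⬝ᵥ
          fun l : Fin m => p.2 ((l : ℤ) + 1)) := by fun_prop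
      exact g.continuousAt.comp (f := fun b => ((toep m b)⁻¹, b)) (hinv.prodMk continuousAt_id)
    apply hc.continuousWithinAt.congr_of_eventuallyEq _ (hform a ha hdet)
    have h1 : ∀ᶠ b in 𝓝 a, (toep m b).det ≠ 0 :=
      (continuous_toep m).matrix_det.continuousAt.eventually_ne hdet
    filter_upwards [nhdsWithin_le_nhds h1, self_mem_nhdsWithin] with b hb1 hb2
    exact hform b hb2 hb1

end Pool.Agent.P.MP_a15892_an
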